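import Mathlib
import Pool.Agent.Run7.h585.NF.LdA

/-!
# MP_6e34ef_nt: large deviations of the three radicals of the solutions of `a + b + c = 0` over a number field

Let `K` be a number field of degree `d`. For a point `P = (a : b : c)` over `K` with `a + b + c = 0`, `abc ≠ 0`, let
`N = N_0 N_1 N_2` be the factorisation of the conductor according to the three coordinates: `log N_l` is the radical of
the ideal `(x_l) / (x_0, x_1, x_2)`. Always `log N_l ≤ log H + O(1)`, and almost always `log N_l` is about `log H`. Let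
the gain `g_l` be `1 - log N_l / log H`, cut off at `0` and `1`. We determine how often the vector of the three gains is
in a given closed set `E`, with the second order term; a violation of the abc inequality with a small constant is a point
with `g_0 + g_1 + g_2 > 2`, and the theorem covers the sets in which the least total gain `s` is less than `1`.

1. `log N = ∑ log N_l`.
2. Let `κ` in `E` have nonnegative coordinates and the least total gain `s = ∑ κ_l`, `0 < s < 1`, of all elements of `E`
   in the unit cube, with the largest `∑ √κ_l` among the elements with the least total gain, and suppose that `E`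
   contains a small cube with the corner `κ`. Then the number `V(T)` of the points with `log H ≤ T` and gains in `E` satisfies
   `log V(T) = d (2 - s) T + (∑_l √(8 κ_l d) + o(1)) √(T / log T)`.
3. If `U` is an open set which contains all the elements of `E` in the unit cube with the least total gain and the largest
   `∑ √g_l`, then the gains of all but a proportion `exp (-δ √(T / log T))` of these points are in `U`.

The same holds if only the points in a set `W` are counted, where `W` contains all points for which `a / b` has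
positive real part at all infinite places (for totally real `K`: `a / b` totally positive).

The proof uses upper bounds uniform in the gains (`Pool/Agent/Run7/h585/LD/Unif.lean`), the lower bounds
`Pool.Agent.N906.KG.loj_all`, and a covering argument (`Pool/Agent/Run7/h585/LD/Abs.lean`).
-/

set_option autoImplicit false

namespace Pool.Agent.Results.MP_6e34ef_nt.RadicalsLargeDeviations

open NumberField IsDedekindDomain Filter Topology

variable {K : Type} [Field K] [NumberField K]

/-- `log H(x_0, x_1, x_2)` -/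
noncomputable def height (x : Fin 3 → K) : ℝ :=
  (∑ w : InfinitePlace K, (w.mult : ℝ) * Real.log (max (w (x 0)) (max (w (x 1)) (w (x 2)))) +
    ∑ᶠ v : HeightOneSpectrum (𝓞 K), Real.log
      (max (FinitePlace.mk v (x 0)) (max (FinitePlace.mk v (x 1)) (FinitePlace.mk v (x 2))))) /
    (Module.finrank ℚ K : ℝ)

/-- `log N(x_0, x_1, x_2)` -/
noncomputable def conductor (x : Fin 3 → K) : ℝ :=
  (∑ᶠ (v : HeightOneSpectrum (𝓞 K)) (_ : ¬ (FinitePlace.mk v (x 0) = FinitePlace.mk v (x 1) ∧
      FinitePlace.mk v (x 1) = FinitePlace.mk v (x 2))),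
    Real.log (Ideal.absNorm v.asIdeal : ℝ)) / (Module.finrank ℚ K : ℝ)

/-- the radical of the `l`-th coordinate: the sum of `log N(v) / d` over the primes `v` dividing the ideal
`(x_l) / (x_0, x_1, x_2)`, that is, with `|x_l|_v < max_i |x_i|_v` -/
noncomputable def radical (l : Fin 3) (x : Fin 3 → K) : ℝ :=
  (∑ᶠ v : HeightOneSpectrum (𝓞 K), (if FinitePlace.mk v (x l) <
      max (FinitePlace.mk v (x 0)) (max (FinitePlace.mk v (x 1)) (FinitePlace.mk v (x 2))) then
    Real.log (Ideal.absNorm v.asIdeal : ℝ) else 0)) / (Module.finrank ℚ K : ℝ)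

/-- `x_0 + x_1 + x_2 = 0` and `x_0 x_1 x_2 ≠ 0` -/
def Solution (P : Projectivization K (Fin 3 → K)) : Prop :=
  P.rep 0 + P.rep 1 + P.rep 2 = 0 ∧ P.rep 0 * P.rep 1 * P.rep 2 ≠ 0

/-- the gains of `P`: the numbers `1 - radical / height`, cut off at `0` and `1` -/
noncomputable def gain (P : Projectivization K (Fin 3 → K)) (l : Fin 3) : ℝ :=
  max 0 (min 1 (1 - radical l P.rep / height P.rep))

/-- the solutions in `W` with `log H ≤ T` and gains in `E` -/
def Points (W : Set (Projectivization K (Fin 3 → K))) (E : Set (Fin 3 → ℝ)) (T : ℝ) :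
    Set (Projectivization K (Fin 3 → K)) :=
  {P | P ∈ W ∧ Solution P ∧ height P.rep ≤ T ∧ gain P ∈ E}

/-- `W` contains all the solutions for which `x_0 / x_1` has positive real part at all infinite places -/
def Large (W : Set (Projectivization K (Fin 3 → K))) : Prop :=
  ∀ P, Solution P → (∀ w : InfinitePlace K, 0 < (w.embedding (P.rep 0 / P.rep 1)).re) → P ∈ W

/-- `g` is in the unit cube -/
def Cube (g : Fin 3 → ℝ) : Prop := (∀ l, 0 ≤ g l) ∧ ∀ l, g l ≤ 1

/-- `E` is closed, `κ` has nonnegative coordinates and a total `∑ κ_l` between `0` and `1`, `E`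
contains a small cube with the corner `κ`, all elements of `E` in the unit cube have at least the total
`∑ κ_l`, and those with the same total have at most the same sum of the square roots. -/
structure Admissible (E : Set (Fin 3 → ℝ)) (κ : Fin 3 → ℝ) : Prop where
  closed : IsClosed E
  nonneg : ∀ l, 0 ≤ κ l
  pos : 0 < ∑ l, κ l
  lt : ∑ l, κ l < 1
  corner : ∃ η : ℝ, 0 < η ∧ ∀ g : Fin 3 → ℝ, (∀ l, κ l ≤ g l ∧ g l ≤ κ l + η) → g ∈ E
  least : ∀ g ∈ E, Cube g → ∑ l, κ l ≤ ∑ l, g l
  largest : ∀ g ∈ E, Cube g → ∑ l, g l = ∑ l, κ l → ∑ l, √(g l) ≤ ∑ l, √(κ l)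

open Pool.Agent.Run7.h585.NF Pool.Agent.W223.AK Pool.Agent.N906.RS Run7.h585.LD.Abs

theorem fin_pos' : (0 : ℝ) < (Module.finrank ℚ K : ℝ) := by
  exact_mod_cast (Module.finrank_pos (R := ℚ) (M := K))

theorem H3_eq (x : Fin 3 → K) : H3 x = (Module.finrank ℚ K : ℝ) * height x := by
  unfold height
  rw [mul_div_cancel₀ _ (fin_pos' (K := K)).ne']
  rfl

theorem cd3_eq (l : Fin 3) (x : Fin 3 → K) : cd3 l x = (Module.finrank ℚ K : ℝ) * radical l x := by
  unfold radical
  rw [mul_div_cancel₀ _ (fin_pos' (K := K)).ne']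
  rfl

theorem gain_eq (P : Projectivization K (Fin 3 → K)) : gain P = g33 P.rep := by
  funext l
  unfold gain g33
  rw [H3_eq, cd3_eq, mul_div_mul_left _ _ (fin_pos' (K := K)).ne']

/-- the conductor is the sum of the radicals -/
theorem conductor_eq {P : Projectivization K (Fin 3 → K)} (h : Solution P) :
    conductor P.rep = ∑ l, radical l P.rep := by
  have hl : Lin P.rep := ⟨h.1, h.2⟩
  have h1 := hl.R3
  have h2 : tr (Pf (P.rep 0 / P.rep 1)) = ∑ l, cd3 l P.rep := by
    unfold tr
    exact Finset.sum_congr rfl fun l _ => hl.rl_eq l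
  have h3 : R3 ∅ P.rep = (Module.finrank ℚ K : ℝ) * conductor P.rep := by
    unfold conductor
    rw [mul_div_cancel₀ _ (fin_pos' (K := K)).ne']
    unfold R3
    refine finsum_congr fun v => ?_
    refine finsum_congr_Prop ?_ fun _ => rfl
    simp
  rw [h3, h2] at h1
  have h4 : ∑ l, cd3 l P.rep = (Module.finrank ℚ K : ℝ) * ∑ l, radical l P.rep := by
    rw [Finset.mul_sum]
    exact Finset.sum_congr rfl fun l _ => cd3_eq l P.rep
  rw [h4] at h1
  exact mul_left_cancel₀ (fin_pos' (K := K)).ne' h1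

/-- the point with the parameter `t` -/
noncomputable def ft (t : K) : Projectivization K (Fin 3 → K) := Projectivization.mk K (w3 t) (w3_ne t)

theorem points_eq (W : Set (Projectivization K (Fin 3 → K))) (E : Set (Fin 3 → ℝ)) (T : ℝ) :
    Points W E T = (fun p : Q3 (ft ⁻¹' W) => ft p.1) ''
      (AS (H33 (ft ⁻¹' W)) (gQ (ft ⁻¹' W)) E ((Module.finrank ℚ K : ℝ) * T)) := by
  have hd := fin_pos' (K := K)
  ext P
  constructor
  · rintro ⟨h1, h2, h3, h4⟩
    have hl : Lin P.rep := ⟨h2.1, h2.2⟩
    have e : ft (P.rep 0 / P.rep 1) = P := by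
      unfold ft
      rw [mk_w3 hl P.rep_nonzero, P.mk_rep]
    have er : rp (P.rep 0 / P.rep 1) = P.rep := congrArg Projectivization.rep e
    refine ⟨⟨P.rep 0 / P.rep 1, hl.pt, ?_⟩, ⟨?_, ?_⟩, e⟩
    · show ft (P.rep 0 / P.rep 1) ∈ W
      rw [e]
      exact h1
    · show H3 (rp (P.rep 0 / P.rep 1)) ≤ _
      rw [er, H3_eq]
      exact mul_le_mul_of_nonneg_left h3 hd.le
    · show g33 (rp (P.rep 0 / P.rep 1)) ∈ E
      rw [er, ← gain_eq]
      exact h4
  · rintro ⟨p, ⟨h2, h3⟩, rfl⟩
    have hr : (ft p.1).rep = rp p.1 := rfl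
    have hl := (rp_lin p.2.1).1
    refine ⟨p.2.2, ⟨?_, ?_⟩, ?_, ?_⟩
    · rw [hr]; exact hl.sum
    · rw [hr]; exact hl.prod
    · have h4 : H3 (rp p.1) ≤ (Module.finrank ℚ K : ℝ) * T := h2
      rw [H3_eq] at h4
      exact le_of_mul_le_mul_left h4 hd
    · rw [gain_eq]
      exact h3

theorem ft_inj (W : Set K) : Function.Injective (fun p : Q3 W => ft p.1) := by
  intro p p' h
  exact Subtype.ext (w3_inj h)

theorem points_card (W : Set (Projectivization K (Fin 3 → K))) (E : Set (Fin 3 → ℝ)) (T : ℝ) :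
    (Points W E T).ncard =
      (AS (H33 (ft ⁻¹' W)) (gQ (ft ⁻¹' W)) E ((Module.finrank ℚ K : ℝ) * T)).ncard := by
  rw [points_eq]
  exact Set.ncard_image_of_injective _ (ft_inj _)

/-- **Large deviations of the radicals.** Let `K` be a number field of degree `d` and `W` a set of points which contains
all the solutions with positive real parts of `x_0 / x_1` at the infinite places. The conductor is the sum of the three
radicals (logarithmically). Let `E`, `κ` be admissible. The number `V(T)` of the solutions in `W` with `log H ≤ T` and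
gains in `E` is finite, `(log V(T) - d (2 - ∑ κ_l) T) / √(T / log T)` tends to `∑_l √(8 κ_l d)`, and if `U` is open and
contains all `g` in `E` in the unit cube with `∑ g_l = ∑ κ_l`, `∑ √g_l = ∑ √κ_l`, then for a `δ > 0` and all
large `T` at most `exp (-δ √(T / log T)) V(T)` of these points have gains outside `U`. -/
theorem result : ∀ (K : Type) [Field K] [NumberField K] (W : Set (Projectivization K (Fin 3 → K))), Large W →
    (∀ P : Projectivization K (Fin 3 → K), Solution P → conductor P.rep = ∑ l, radical l P.rep) ∧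
    ∀ (E : Set (Fin 3 → ℝ)) (κ : Fin 3 → ℝ), Admissible E κ →
      (∀ T : ℝ, (Points W E T).Finite) ∧
      Tendsto (fun T : ℝ => (Real.log ((Points W E T).ncard : ℝ) -
          Module.finrank ℚ K * (2 - ∑ l, κ l) * T) / √(T / Real.log T)) atTop
        (𝓝 (∑ l, √(8 * κ l * Module.finrank ℚ K))) ∧
      ∀ U : Set (Fin 3 → ℝ), IsOpen U →
        (∀ g ∈ E, Cube g → ∑ l, g l = ∑ l, κ l → ∑ l, √(g l) = ∑ l, √(κ l) → g ∈ U) →
        ∃ δ : ℝ, 0 < δ ∧ ∀ᶠ T : ℝ in atTop, ((Points W (E \ U) T).ncard : ℝ) ≤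
          Real.exp (-(δ * √(T / Real.log T))) * ((Points W E T).ncard : ℝ) := by
  intro K _ _ W hW
  refine ⟨fun P hP => conductor_eq hP, fun E κ hE => ?_⟩
  have hd := fin_pos' (K := K)
  obtain ⟨η, hη, hb⟩ := hE.corner
  have hW' : ∀ t : K, (∀ w : InfinitePlace K, 0 < (w.embedding t).re) → t ∈ ft ⁻¹' W := by
    intro t ht
    have hpt : Pt t := by
      obtain ⟨w⟩ : Nonempty (InfinitePlace K) := inferInstance
      have h1 := ht w
      refine ⟨fun h0 => ?_, fun h0 => ?_⟩
      · rw [h0, map_zero] at h1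
        exact lt_irrefl _ h1
      · have h2 : t = -1 := by linear_combination h0
        rw [h2, map_neg, map_one] at h1
        norm_num at h1
    obtain ⟨hl, e⟩ := rp_lin hpt
    refine hW (ft t) ⟨hl.sum, hl.prod⟩ ?_
    intro w
    have e' : (ft t).rep 0 / (ft t).rep 1 = t := e
    rw [e']
    exact ht w
  have h1 : ∀ g ∈ E, (∀ l, 0 ≤ g l) → (∀ l, g l ≤ 1) → ∑ l, κ l ≤ ∑ l, g l :=
    fun g hg g0 g1 => hE.least g hg ⟨g0, g1⟩
  have h2 : ∀ g ∈ E, (∀ l, 0 ≤ g l) → (∀ l, g l ≤ 1) → ∑ l, g l = ∑ l, κ l →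
      ∑ l, √(g l) ≤ ∑ l, √(κ l) := fun g hg g0 g1 => hE.largest g hg ⟨g0, g1⟩
  refine ⟨fun T => ?_, ?_, fun U hU h3 => ?_⟩
  · rw [points_eq]
    exact (as_finite (fin33 _) E _).image _
  · have h := ab_lim (fin33 (ft ⁻¹' W)) gQ0 gQ1 (ub33 (ft ⁻¹' W)) (lb33 hW') le_rfl hE.closed
      hE.nonneg hE.pos hE.lt hη hb h1 h2
    have h5 := lim_scale hd h
    have e1 : √(Module.finrank ℚ K : ℝ) * (√8 * ∑ l, √(κ l)) = ∑ l, √(8 * κ l * Module.finrank ℚ K) := by
      rw [Finset.mul_sum, Finset.mul_sum]
      refine Finset.sum_congr rfl fun l _ => ?_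
      rw [← Real.sqrt_mul (by norm_num), ← Real.sqrt_mul hd.le]
      congr 1
      ring
    rw [e1] at h5
    refine h5.congr fun T => ?_
    rw [points_card W E T]
  · obtain ⟨δ, hδ, X₀, -, h⟩ := ab_conc (fin33 (ft ⁻¹' W)) gQ0 gQ1 (ub33 (ft ⁻¹' W)) (lb33 hW')
      le_rfl hE.closed hE.nonneg hE.pos hE.lt hη hb h1 h2 hU
      (fun g hg g0 g1 => h3 g hg ⟨g0, g1⟩)
    obtain ⟨δ', hδ', L₀, h5⟩ := exp_scale hd
      (N := fun X => ((AS (H33 (ft ⁻¹' W)) (gQ (ft ⁻¹' W)) (E \ U) X).ncard : ℝ))
      (M := fun X => ((AS (H33 (ft ⁻¹' W)) (gQ (ft ⁻¹' W)) E X).ncard : ℝ))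
      (fun _ => Nat.cast_nonneg _) hδ h
    refine ⟨δ', hδ', ?_⟩
    filter_upwards [eventually_ge_atTop L₀] with T hT
    rw [points_card W _ T, points_card W _ T]
    exact h5 _ hT

end Pool.Agent.Results.MP_6e34ef_nt.RadicalsLargeDeviations
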