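import Mathlib
import Pool.Agent.Run7.h585.NF.Proj

/-!
# The anatomy of the triples with small conductors over a number field

Let `K` be a number field of degree `d` and `0 < κ < 1`. We consider the points `P = (a : b : c)` over `K` with
`a + b + c = 0`, `abc ≠ 0`, `log H ≤ T` and `log N ≤ (3 - κ) log H + C`, that is `H ≥ c N ^ λ` with an exponent
`λ = 1 / (3 - κ)` between `1/3` and `1/2` (for almost all points `log N` is about `3 log H`). All of them but a proportion
of at most `exp (-δ √(T / log T))` look alike: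

* `log H = (1 - o(1)) T`, and at the infinite places the three coordinates have the same size up to `exp (o(T))`;
* each of the three radicals (of the ideals of the coordinates) is `(1 - κ/3 + o(1)) T`;
* the ideal of each coordinate is divisible by the squares of `(√(2/3) + o(1)) √(κ X / log X)` primes, `X = d T`; for
  `c ≥ 1/2` a proportion `1 - 1/(2c)` of these primes has a norm up to `X ^ c`;
* these primes contribute only `o(T)` to the radicals: the defect comes from high powers of few small primes.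
-/

set_option autoImplicit false

namespace Pool.Agent.Results.MP_6e34ef_nt.TypicalViolators

open NumberField IsDedekindDomain Filter Topology

variable {K : Type} [Field K] [NumberField K]

/-- `log H(x_0, x_1, x_2)` -/
noncomputable def height (x : Fin 3 → K) : ℝ :=
  (∑ w : InfinitePlace K, (w.mult : ℝ) * Real.log (max (w (x 0)) (max (w (x 1)) (w (x 2)))) +
    ∑ᶠ v : HeightOneSpectrum (𝓞 K), Real.log
      (max (FinitePlace.mk v (x 0)) (max (FinitePlace.mk v (x 1)) (FinitePlace.mk v (x 2))))) /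
    (Module.finrank ℚ K : ℝ)

/-- `log N(x_0, x_1, x_2)` -/
noncomputable def conductor (x : Fin 3 → K) : ℝ :=
  (∑ᶠ (v : HeightOneSpectrum (𝓞 K)) (_ : ¬ (FinitePlace.mk v (x 0) = FinitePlace.mk v (x 1) ∧
      FinitePlace.mk v (x 1) = FinitePlace.mk v (x 2))),
    Real.log (Ideal.absNorm v.asIdeal : ℝ)) / (Module.finrank ℚ K : ℝ)

/-- the largest of the absolute values of the coordinates at `v` (`FinitePlace.mk v` is the absolute value for which a
uniformizer has the value `N(v)⁻¹`) -/
noncomputable def top (v : HeightOneSpectrum (𝓞 K)) (x : Fin 3 → K) : ℝ :=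
  max (FinitePlace.mk v (x 0)) (max (FinitePlace.mk v (x 1)) (FinitePlace.mk v (x 2)))

/-- the radical of the `l`-th coordinate: the sum of `log N(v) / d` over the primes `v` dividing the ideal
`(x_l) / (x_0, x_1, x_2)` -/
noncomputable def radical (l : Fin 3) (x : Fin 3 → K) : ℝ :=
  (∑ᶠ v : HeightOneSpectrum (𝓞 K), (if FinitePlace.mk v (x l) < top v x then
    Real.log (Ideal.absNorm v.asIdeal : ℝ) else 0)) / (Module.finrank ℚ K : ℝ)

/-- the same with the primes whose square divides this ideal -/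
noncomputable def multipleRadical (l : Fin 3) (x : Fin 3 → K) : ℝ :=
  (∑ᶠ v : HeightOneSpectrum (𝓞 K),
    (if FinitePlace.mk v (x l) ≤ top v x * ((Ideal.absNorm v.asIdeal : ℝ) ^ 2)⁻¹ then
      Real.log (Ideal.absNorm v.asIdeal : ℝ) else 0)) / (Module.finrank ℚ K : ℝ)

/-- the number of the primes of norm at most `z` whose square divides this ideal -/
noncomputable def multipleCount (z : ℝ) (l : Fin 3) (x : Fin 3 → K) : ℕ :=
  {v : HeightOneSpectrum (𝓞 K) | (Ideal.absNorm v.asIdeal : ℝ) ≤ z ∧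
    FinitePlace.mk v (x l) ≤ top v x * ((Ideal.absNorm v.asIdeal : ℝ) ^ 2)⁻¹}.ncard

variable (K) in
/-- the points `(x_0 : x_1 : x_2)` with `x_0 + x_1 + x_2 = 0`, `x_0 x_1 x_2 ≠ 0`, `log H ≤ T` and
`log N ≤ (3 - κ) log H + C` -/
def Violators (κ C T : ℝ) : Set (Projectivization K (Fin 3 → K)) :=
  {P | ∃ (x : Fin 3 → K) (hx : x ≠ 0), P = Projectivization.mk K x hx ∧ x 0 + x 1 + x 2 = 0 ∧
    x 0 * x 1 * x 2 ≠ 0 ∧ height x ≤ T ∧ conductor x ≤ (3 - κ) * height x + C}

variable (K) in
/-- the typical number of primes whose square divides a coordinate: `√(2 κ X / (3 log X))`, `X = d T` -/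
noncomputable def main (κ T : ℝ) : ℝ :=
  √(2 * κ * ((Module.finrank ℚ K : ℝ) * T) / (3 * Real.log ((Module.finrank ℚ K : ℝ) * T)))

variable (K) in
/-- the typical proportion of those with norm at most `z`: `max (0, 1 - log X / (2 log z))`, `X = d T` -/
noncomputable def part (T z : ℝ) : ℝ :=
  max 0 (1 - Real.log ((Module.finrank ℚ K : ℝ) * T) / (2 * Real.log z))

/-- the typical triples -/
structure Typical (κ ε T : ℝ) (x : Fin 3 → K) : Prop where
  height_ge : (1 - ε) * T ≤ height x
  infinite : ∀ (w : InfinitePlace K) (l l' : Fin 3), w (x l) ≤ Real.exp (ε * T) * w (x l')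
  radicals : ∀ l : Fin 3, |radical l x - (1 - κ / 3) * T| ≤ ε * T
  multiple : ∀ l : Fin 3, multipleRadical l x ≤ ε * T
  counts : ∀ (l : Fin 3) (z : ℝ), 2 ≤ z →
    |(multipleCount z l x : ℝ) - part K T z * main K κ T| ≤ ε * main K κ T

variable (K) in
/-- the violators with atypical coordinates -/
def Atypical (κ C ε T : ℝ) : Set (Projectivization K (Fin 3 → K)) :=
  {P | P ∈ Violators K κ C T ∧ ∃ (x : Fin 3 → K) (hx : x ≠ 0), P = Projectivization.mk K x hx ∧
    ¬ Typical κ ε T x}

open Pool.Agent.Run7.h585.NF Pool.Agent.W223.AK in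
theorem typ_of {κ ε T : ℝ} (hε : 0 < ε) (hT : 2 / ε ≤ T) {x : Fin 3 → K} (hx : Lin x)
    (h : Typ κ (ε / (2 * (Module.finrank ℚ K : ℝ))) ((Module.finrank ℚ K : ℝ) * T) (x 0 / x 1)) :
    Typical κ ε T x := by
  obtain ⟨h1, h2, h3, -, h5, h6⟩ := h
  have hT0 : 0 < T := lt_of_lt_of_le (by positivity) hT
  obtain ⟨d, hd⟩ : ∃ d : ℝ, d = (Module.finrank ℚ K : ℝ) := ⟨_, rfl⟩
  have hd1 : 1 ≤ d := by
    rw [hd]
    exact_mod_cast (Module.finrank_pos (R := ℚ) (M := K))
  have hd0 : 0 < d := by linarith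
  rw [← hd] at h1 h2 h3 h5 h6
  have hεd : ε / (2 * d) * (d * T) = ε * T / 2 := by field_simp
  have hεd2 : ε / (2 * d) ≤ ε := div_le_self hε.le (by linarith)
  have hεT : 0 < ε * T := by positivity
  have hεT2 : 2 ≤ ε * T := by
    rw [div_le_iff₀ hε] at hT
    linarith
  have hH : H3 x = d * height x := by
    unfold height
    rw [← hd, mul_div_cancel₀ _ hd0.ne']
    rfl
  have hr : ∀ l, cd3 l x = d * radical l x := by
    intro l
    unfold radical
    rw [← hd, mul_div_cancel₀ _ hd0.ne']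
    rfl
  have hs : ∀ l, sqd3 l x = d * multipleRadical l x := by
    intro l
    unfold multipleRadical
    rw [← hd, mul_div_cancel₀ _ hd0.ne']
    rfl
  refine ⟨?_, fun w l l' => ?_, fun l => ?_, fun l => ?_, fun l z hz => ?_⟩
  · have h7 := h1.trans hx.H3.1
    rw [hH] at h7
    have h8 : (1 - ε) * (d * T) ≤ (1 - ε / (2 * d)) * (d * T) :=
      mul_le_mul_of_nonneg_right (by linarith) (by positivity)
    have h9 : d * ((1 - ε) * T) ≤ d * height x := by linarith
    exact le_of_mul_le_mul_left h9 hd0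
  · rw [hεd] at h2
    refine (hx.inf h2 w l l').trans ?_
    apply mul_le_mul_of_nonneg_right _ (apply_nonneg _ _)
    have h7 : (2 : ℝ) ≤ Real.exp (ε * T / 2) := by
      have := Real.add_one_le_exp (ε * T / 2)
      linarith
    calc 2 * Real.exp (ε * T / 2) ≤ Real.exp (ε * T / 2) * Real.exp (ε * T / 2) :=
          mul_le_mul_of_nonneg_right h7 (Real.exp_pos _).le
      _ = Real.exp (ε * T) := by rw [← Real.exp_add]; congr 1; ring
  · have h7 := h5 l
    rw [hx.rl_eq, hr, hεd] at h7
    have e : d * radical l x - (1 - κ / 3) * (d * T) = d * (radical l x - (1 - κ / 3) * T) := by ring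
    rw [e, abs_mul, abs_of_pos hd0] at h7
    have h8 : 0 ≤ |radical l x - (1 - κ / 3) * T| := abs_nonneg _
    nlinarith
  · have h7 : rl (Ef (x 0 / x 1) l) ≤ Pool.Agent.N906.RS.tr (Ef (x 0 / x 1)) := by
      unfold Pool.Agent.N906.RS.tr
      exact Finset.single_le_sum (f := fun l => rl (Ef (x 0 / x 1) l)) (fun l _ => rl_nonneg _)
        (Finset.mem_univ l)
    rw [hx.rl_eq2] at h7
    have h8 := h7.trans h3
    rw [hεd] at h8
    have h9 := sqd3_nonneg l x
    rw [hs] at h8 h9
    have h10 : 0 ≤ multipleRadical l x := by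
      by_contra hc
      rw [not_le] at hc
      nlinarith
    nlinarith
  · have h7 := h6 l z hz
    rw [hx.cnt_eq] at h7
    have e1 : multipleCount z l x = sqn3 z l x := rfl
    have e2 : part K T z = pr (d * T) z := by rw [hd]; rfl
    have e3 : main K κ T = s1 κ (d * T) := by rw [hd]; rfl
    rw [e1, e2, e3]
    refine h7.trans ?_
    exact mul_le_mul_of_nonneg_right hεd2 (s1_nonneg _ _)

open Pool.Agent.Run7.h585.NF Pool.Agent.W223.AK Pool.Agent.N906.RS Pool.Agent.H691R3 in
/-- **The typical triples with small conductors.** Let `K` be a number field, `0 < κ < 1`, `C ≥ 0` and `ε > 0`. There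
are `δ > 0` and `T₀` such that, for `T ≥ T₀`, the set of the points with `log H ≤ T` and `log N ≤ (3 - κ) log H + C` is
finite and all but at most the proportion `exp (-δ √(T / log T))` of them are typical. -/
theorem result : ∀ (K : Type) [Field K] [NumberField K] (κ C ε : ℝ), 0 < κ → κ < 1 → 0 ≤ C → 0 < ε →
    ∃ δ T₀ : ℝ, 0 < δ ∧ ∀ T : ℝ, T₀ ≤ T → (Violators K κ C T).Finite ∧
      ((Atypical K κ C ε T).ncard : ℝ) ≤
        Real.exp (-(δ * √(T / Real.log T))) * (Violators K κ C T).ncard := by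
  intro K _ _ κ C ε hκ hκ1 hC hε
  obtain ⟨d, hd⟩ : ∃ d : ℝ, d = (Module.finrank ℚ K : ℝ) := ⟨_, rfl⟩
  have hd1 : 1 ≤ d := by
    rw [hd]
    exact_mod_cast (Module.finrank_pos (R := ℚ) (M := K))
  have hd0 : 0 < d := by linarith
  have hloss : 0 ≤ lossK K := by
    have hb := (Lin.w3 (K := K) (t := 1) ⟨one_ne_zero, by norm_num⟩).H3
    linarith [hb.1, hb.2]
  obtain ⟨δ, X₀, hδ, hX₀, h⟩ := prop_typ K κ (d * C + 3 * lossK K) (lossK K) (ε / (2 * d)) hκ hκ1
    (by positivity) hloss (by positivity)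
  refine ⟨δ * √(κ * d / 3), max (max (max X₀ 3) d) (2 / ε), by positivity, fun T hT => ?_⟩
  have hTa : X₀ ≤ T :=
    (((le_max_left _ _).trans (le_max_left _ _)).trans (le_max_left _ _)).trans hT
  have hT3 : 3 ≤ T :=
    (((le_max_right _ _).trans (le_max_left _ _)).trans (le_max_left _ _)).trans hT
  have hTd : d ≤ T := ((le_max_right _ _).trans (le_max_left _ _)).trans hT
  have hTε : 2 / ε ≤ T := (le_max_right _ _).trans hT
  have hT0 : 0 < T := by linarith
  have hH : ∀ x : Fin 3 → K, H3 x = d * height x := by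
    intro x
    unfold height
    rw [← hd, mul_div_cancel₀ _ hd0.ne']
    rfl
  have hR : ∀ x : Fin 3 → K, R3 ∅ x = d * conductor x := by
    intro x
    unfold conductor
    rw [← hd, mul_div_cancel₀ _ hd0.ne']
    unfold R3
    refine finsum_congr fun v => ?_
    refine finsum_congr_Prop ?_ fun _ => rfl
    simp
  obtain ⟨f, hf⟩ : ∃ f : K → Projectivization K (Fin 3 → K),
    f = fun t => Projectivization.mk K (w3 t) (w3_ne t) := ⟨_, rfl⟩
  have hfinj : Function.Injective f := by rw [hf]; exact w3_inj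
  have hft : ∀ t, f t = Projectivization.mk K (w3 t) (w3_ne t) := fun t => by rw [hf]
  obtain ⟨A, hA⟩ : ∃ A : Set K, A = {t | f t ∈ Violators K κ C T} := ⟨_, rfl⟩
  have hpt : ∀ t ∈ A, ∃ (x : Fin 3 → K) (hx : x ≠ 0), Lin x ∧ x 0 / x 1 = t ∧ height x ≤ T ∧
      conductor x ≤ (3 - κ) * height x + C := by
    intro t ht
    rw [hA] at ht
    obtain ⟨x, hx, g1, g2, g3, g4, g5⟩ := ht
    have hl : Lin x := ⟨g2, g3⟩
    rw [hft] at g1
    exact ⟨x, hx, hl, hl.div_eq hx g1, g4, g5⟩
  obtain ⟨hfin, hB⟩ := h (d * T) (by nlinarith) A (by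
    intro t ht h1 h2
    rw [hA]
    have hl := Lin.w3 ht
    have e : w3 t 0 / w3 t 1 = t := hl.div_eq (w3_ne t) rfl
    have hb := hl.H3
    have hr := hl.R3
    rw [e] at hb hr
    refine ⟨w3 t, w3_ne t, hft t, hl.sum, hl.prod, ?_, ?_⟩
    · have h3 : d * height (w3 t) ≤ d * T := by
        rw [← hH]
        linarith
      exact le_of_mul_le_mul_left h3 hd0
    · have h3 : d * conductor (w3 t) ≤ d * ((3 - κ) * height (w3 t) + C) := by
        rw [← hR, hr, mul_add, show d * ((3 - κ) * height (w3 t)) = (3 - κ) * (d * height (w3 t)) by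
          ring, ← hH]
        have h4 := mul_le_mul_of_nonneg_left hb.1 (by linarith : (0 : ℝ) ≤ 3 - κ)
        have h5 : 0 ≤ d * C := by positivity
        linarith
      exact le_of_mul_le_mul_left h3 hd0) (by
    intro t ht
    obtain ⟨x, hx, hl, rfl, g4, g5⟩ := hpt t ht
    refine ⟨hl.pt, ?_, ?_⟩
    · have h3 := hl.H3.1
      rw [hH] at h3
      exact h3.trans (mul_le_mul_of_nonneg_left g4 hd0.le)
    · rw [← hl.R3, hR]
      have h3 := hl.H3.2
      rw [hH] at h3
      have h4 := mul_le_mul_of_nonneg_left g5 hd0.le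
      have h5 := mul_le_mul_of_nonneg_left h3 (by linarith : (0 : ℝ) ≤ 3 - κ)
      have h6 := mul_nonneg hκ.le hloss
      linarith [show d * ((3 - κ) * height x + C) = (3 - κ) * (d * height x) + d * C by ring,
        show (3 - κ) * (W223.AK.ht (x 0 / x 1) + lossK K) = (3 - κ) * W223.AK.ht (x 0 / x 1) +
          3 * lossK K - κ * lossK K by ring])
  have hV : Violators K κ C T = f '' A := by
    ext P
    constructor
    · intro hP
      obtain ⟨x, hx, g1, g2, g3, g4, g5⟩ := id hP
      have hl : Lin x := ⟨g2, g3⟩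
      have e : f (x 0 / x 1) = P := by rw [hft, mk_w3 hl hx, g1]
      refine ⟨x 0 / x 1, ?_, e⟩
      rw [hA]
      show f (x 0 / x 1) ∈ Violators K κ C T
      rw [e]
      exact hP
    · rintro ⟨t, ht, rfl⟩
      rw [hA] at ht
      exact ht
  have hfin' : (Violators K κ C T).Finite := by
    rw [hV]
    exact hfin.image _
  refine ⟨hfin', ?_⟩
  obtain ⟨B, hBdef⟩ : ∃ B : Set K, B = {t | f t ∈ Atypical K κ C ε T} := ⟨_, rfl⟩
  have hBA : B ⊆ A := by
    rw [hBdef, hA]
    exact fun t ht => ht.1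
  have h1 := hB B hBA (by
    intro t ht htyp
    have hp : Pt t := by
      obtain ⟨x, hx, hl, rfl, -⟩ := hpt t (hBA ht)
      exact hl.pt
    rw [hBdef] at ht
    obtain ⟨-, x, hx, g1, g2⟩ := ht
    rw [hft] at g1
    obtain ⟨hl, e⟩ := Lin.of_eq hp g1
    apply g2
    refine typ_of hε hTε hl ?_
    rw [← hd, e]
    exact htyp)
  have hAt : Atypical K κ C ε T = f '' B := by
    ext P
    constructor
    · intro hP
      have hP1 := hP.1
      rw [hV] at hP1
      obtain ⟨t, ht, rfl⟩ := hP1
      exact ⟨t, by rw [hBdef]; exact hP, rfl⟩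
    · rintro ⟨t, ht, rfl⟩
      rw [hBdef] at ht
      exact ht
  rw [hV, hAt, Set.ncard_image_of_injective _ hfinj, Set.ncard_image_of_injective _ hfinj]
  refine h1.trans ?_
  apply mul_le_mul_of_nonneg_right _ (Nat.cast_nonneg _)
  apply Real.exp_le_exp.2
  have h2 := s1_ge (κ := κ) hκ.le hd1 hT3 hTd
  have h3 := mul_le_mul_of_nonneg_left h2 hδ.le
  linarith

end Pool.Agent.Results.MP_6e34ef_nt.TypicalViolators
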