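import Pool.Agent.Run7.h128.NW.Nrm

/-!
# Exact divisors of `α ^ (Nv - 1) - 1`, uniformly in all number fields

There is a set of at least `x / (50 log x)` prime numbers `p ≤ x` which serves all number fields in
which `p` is unramified at the same time.
-/

set_option autoImplicit false

namespace Pool.Agent.Results.MP_6e34ef_nt.UniformNonWieferich

open NumberField IsDedekindDomain
open scoped WithZero

/-- `v` is not a Wieferich prime of `K` for the base `α`: `α` is a unit at `v` and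
`α ^ (Nv - 1) - 1` is divisible by `v` exactly once (`exp (-1)` is the value of an element of
order one at `v`). -/
def NonWieferich (K : Type) [Field K] [NumberField K] (α : K) (v : HeightOneSpectrum (𝓞 K)) : Prop :=
  v.valuation K α = 1 ∧
    v.valuation K (α ^ (Ideal.absNorm v.asIdeal - 1) - 1) = WithZero.exp (-1 : ℤ)

/-- The prime number `p` is good for the base `b` in all number fields in which it is unramified:
* every root `α` of a power `b ^ m`, `p ∤ m`, is a non-Wieferich base at every prime above `p`;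
* of the elements `b ^ i α` and `b ^ j α`, with `α` a unit at the prime `v` above `p` and
  `p ∤ j - i`, at least one is a non-Wieferich base at `v`;
* every element of norm `± b ^ a`, `p ∤ a`, which is a unit above `p`, is a non-Wieferich base at
  some prime above `p`. -/
def Good (b p : ℕ) : Prop :=
  ∀ (K : Type) [Field K] [NumberField K], ¬ (p : ℤ) ∣ discr K →
    (∀ v : HeightOneSpectrum (𝓞 K), (p : 𝓞 K) ∈ v.asIdeal → ∀ α : K,
      (∀ n m : ℕ, 0 < n → ¬ p ∣ m → α ^ n = (b : K) ^ m → NonWieferich K α v) ∧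
      (v.valuation K α = 1 → ∀ i j : ℕ, i < j → ¬ p ∣ j - i →
        NonWieferich K ((b : K) ^ i * α) v ∨ NonWieferich K ((b : K) ^ j * α) v)) ∧
    (∀ α : K, (∀ v : HeightOneSpectrum (𝓞 K), (p : 𝓞 K) ∈ v.asIdeal → v.valuation K α = 1) →
      ∀ a : ℤ, ¬ (p : ℤ) ∣ a → |Algebra.norm ℚ α| = (b : ℚ) ^ a →
        ∃ v : HeightOneSpectrum (𝓞 K), (p : 𝓞 K) ∈ v.asIdeal ∧ NonWieferich K α v)

lemma good_of {b p : ℕ} (hp : p.Prime) (hp2 : p ≠ 2) (hb : ¬ p ∣ b)
    (hW : ¬ p ^ 2 ∣ b ^ (p - 1) - 1) : Good b p := by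
  intro K _ _ hd
  refine ⟨fun v hv α => ⟨fun n m hn hm h => ?_, fun hα i j hij hj => ?_⟩, fun α hα a ha h => ?_⟩
  · exact Run7.h128.NW.root_nonWief hp hb hW hv (Run7.h283.NW.not_mem_sq hp hd v hv) hn hm h
  · exact Run7.h128.NW.chain_nonWief hp hb hW hv (Run7.h283.NW.not_mem_sq hp hd v hv) hα hij hj
  · exact Run7.h128.NW.norm_nonWief hp hp2 hb hW hd hα ha h

/-- **Theorem.** -/
theorem result :
    (∃ x₀ : ℕ, ∀ x : ℕ, x₀ ≤ x →
      (x : ℝ) / (50 * Real.log x) ≤ ({p : ℕ | p ≤ x ∧ p.Prime ∧ Good 2 p}.ncard : ℝ)) ∧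
    (∃ x₀ : ℕ, ∀ x : ℕ, x₀ ≤ x →
      (x : ℝ) / (111 * Real.log x) ≤ ({p : ℕ | p ≤ x ∧ p.Prime ∧ Good 3 p}.ncard : ℝ)) ∧
    (∀ r : ℕ, r = 1 ∨ r = 5 → ∃ x₀ : ℕ, ∀ x : ℕ, x₀ ≤ x →
      (x : ℝ) / (110 * Real.log x) ≤
        ({p : ℕ | p ≤ x ∧ p.Prime ∧ p % 6 = r ∧ Good 432 p}.ncard : ℝ)) := by
  refine ⟨?_, ?_, ?_⟩
  · obtain ⟨x₀, h⟩ := Run7.h361.density'
    refine ⟨x₀, fun x hx => ?_⟩
    have h1 := h x hx
    have hfin : {p : ℕ | p ≤ x ∧ p.Prime ∧ Good 2 p}.Finite :=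
      (Set.finite_Iic x).subset (fun p hp => hp.1)
    have hsub : (((Run7.h361.nw x).erase 2 : Finset ℕ) : Set ℕ) ⊆
        {p : ℕ | p ≤ x ∧ p.Prime ∧ Good 2 p} := by
      intro p hp
      rw [Finset.mem_coe, Finset.mem_erase, Run7.h361.mem_nw] at hp
      obtain ⟨hp2, hpx, hpp, hW⟩ := hp
      exact ⟨hpx, hpp, good_of hpp hp2 (fun hd => hp2 ((Nat.prime_dvd_prime_iff_eq hpp
        Nat.prime_two).1 hd)) hW⟩
    have h4 := Set.ncard_le_ncard hsub hfin
    rw [Set.ncard_coe_finset] at h4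
    have h5 := Finset.pred_card_le_card_erase (s := Run7.h361.nw x) (a := 2)
    have h6 : ((Run7.h361.nw x).card : ℝ) ≤
        ({p : ℕ | p ≤ x ∧ p.Prime ∧ Good 2 p}.ncard : ℝ) + 1 := by
      exact_mod_cast (by omega)
    linarith
  · obtain ⟨x₀, h⟩ := Run7.h510.B3.density_all
    obtain ⟨x₁, h1⟩ := Run7.h283.NW.big_div_log (2 * (110 * 111))
    refine ⟨max x₀ (max x₁ 2), fun x hx => ?_⟩
    have hx0 : x₀ ≤ x := (le_max_left _ _).trans hx
    have hx1 : x₁ ≤ x := (le_max_left _ _).trans ((le_max_right _ _).trans hx)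
    have hx2 : 2 ≤ x := (le_max_right _ _).trans ((le_max_right _ _).trans hx)
    have h2 := h x hx0 0 1 one_ne_zero (by simpa using (Real.exp_pos _).le)
        (by simpa using Real.one_le_exp (by positivity))
    have h3 := h1 x hx1
    have hfin : {p : ℕ | p ≤ x ∧ p.Prime ∧ Good 3 p}.Finite :=
      (Set.finite_Iic x).subset (fun p hp => hp.1)
    have hsub : {p : ℕ | p ≤ x ∧ p.Prime ∧ ¬ ((p : ℤ)) ^ 2 ∣ 1 * (3 ^ (p - 1) - 1) - 0 * p} ⊆
        {p : ℕ | p ≤ x ∧ p.Prime ∧ Good 3 p} ∪ {2, 3} := by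
      intro p hp
      obtain ⟨hpx, hpp, hW⟩ := hp
      by_cases h23 : p = 2 ∨ p = 3
      · right
        exact h23
      · left
        push Not at h23
        refine ⟨hpx, hpp, good_of hpp h23.1 (fun hd => h23.2 ((Nat.prime_dvd_prime_iff_eq hpp
          Nat.prime_three).1 hd)) fun hd => hW ?_⟩
        have h4 : ((p ^ 2 : ℕ) : ℤ) ∣ ((3 ^ (p - 1) - 1 : ℕ) : ℤ) := by exact_mod_cast hd
        rw [Nat.cast_sub (Nat.one_le_pow _ _ (by norm_num))] at h4
        push_cast at h4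
        simpa using h4
    have h4 : {p : ℕ | p ≤ x ∧ p.Prime ∧
        ¬ ((p : ℤ)) ^ 2 ∣ 1 * (3 ^ (p - 1) - 1) - 0 * p}.ncard ≤
        {p : ℕ | p ≤ x ∧ p.Prime ∧ Good 3 p}.ncard + 2 := by
      refine (Set.ncard_le_ncard hsub (hfin.union (Set.toFinite _))).trans ?_
      refine (Set.ncard_union_le _ _).trans ?_
      have h5 : ({2, 3} : Set ℕ).ncard ≤ 2 := by
        rw [Set.ncard_pair (by norm_num)]
      omega
    have h5 : ({p : ℕ | p ≤ x ∧ p.Prime ∧
        ¬ ((p : ℤ)) ^ 2 ∣ 1 * (3 ^ (p - 1) - 1) - 0 * p}.ncard : ℝ) ≤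
        ({p : ℕ | p ≤ x ∧ p.Prime ∧ Good 3 p}.ncard : ℝ) + 2 := by exact_mod_cast h4
    have hlog : 0 < Real.log x := Real.log_pos (by exact_mod_cast hx2)
    have e1 : (x : ℝ) / (110 * Real.log x) = (x / Real.log x) / 110 := by
      field_simp
    have e2 : (x : ℝ) / (111 * Real.log x) = (x / Real.log x) / 111 := by
      field_simp
    rw [e1] at h2
    rw [e2]
    linarith
  · intro r hr
    obtain ⟨x₀, h⟩ := Run7.h510.G.Six.density_all r hr
    refine ⟨x₀, fun x hx => ?_⟩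
    refine (h x hx 0 1 one_ne_zero (by simpa using (Real.exp_pos _).le)
        (by simpa using Real.one_le_exp (by positivity))).trans ?_
    have hfin : {p : ℕ | p ≤ x ∧ p.Prime ∧ p % 6 = r ∧ Good 432 p}.Finite :=
      (Set.finite_Iic x).subset (fun p hp => hp.1)
    refine Nat.cast_le.2 (Set.ncard_le_ncard ?_ hfin)
    intro p hp
    obtain ⟨hpx, hpp, hpr, hW⟩ := hp
    have hp2 : p ≠ 2 := by rintro rfl; omega
    have hp3 : p ≠ 3 := by rintro rfl; omega
    refine ⟨hpx, hpp, hpr, good_of hpp hp2 (fun hd => ?_) fun hd => hW ?_⟩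
    · have h1 : (432 : ℕ) = 2 ^ 4 * 3 ^ 3 := by norm_num
      rw [h1] at hd
      rcases (Nat.Prime.dvd_mul hpp).1 hd with h2 | h2
      · exact hp2 ((Nat.prime_dvd_prime_iff_eq hpp Nat.prime_two).1 (hpp.dvd_of_dvd_pow h2))
      · exact hp3 ((Nat.prime_dvd_prime_iff_eq hpp Nat.prime_three).1 (hpp.dvd_of_dvd_pow h2))
    · have h4 : ((p ^ 2 : ℕ) : ℤ) ∣ ((432 ^ (p - 1) - 1 : ℕ) : ℤ) := by exact_mod_cast hd
      rw [Nat.cast_sub (Nat.one_le_pow _ _ (by norm_num))] at h4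
      push_cast at h4
      simpa using h4

end Pool.Agent.Results.MP_6e34ef_nt.UniformNonWieferich
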